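import Mathlib

/-!
# Chebyshev-type trigonometric quadrature: perturbations of the weight
-/

set_option autoImplicit false

namespace Pool.Agent.R228.CQ

open Real MeasureTheory

/-- A `2π`-periodic weight function. -/
structure IsWeight (W : ℝ → ℝ) : Prop where
  measurable : Measurable W
  nonneg : ∀ θ, 0 ≤ W θ
  periodic : ∀ θ, W (θ + 2 * π) = W θ
  integrable : IntervalIntegrable W volume (-π) π
  pos : 0 < ∫ θ in (-π)..π, W θ

/-- The real trigonometric polynomials of degree at most `n`. -/
def TrigPoly (n : ℕ) : Set (ℝ → ℝ) :=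
  {p | ∃ a b : ℕ → ℝ, ∀ θ, p θ = ∑ k ∈ Finset.range (n + 1),
    (a k * Real.cos (k * θ) + b k * Real.sin (k * θ))}

/-- There is a Chebyshev-type trigonometric quadrature of degree `n` for `W` with `N` nodes
(repetitions allowed) and one common weight. -/
def HasQuad (W : ℝ → ℝ) (n N : ℕ) : Prop :=
  ∃ (x : Fin N → ℝ) (lam : ℝ), ∀ p ∈ TrigPoly n,
    ∫ θ in (-π)..π, p θ * W θ = lam * ∑ i, p (x i)

/-- The least number of nodes of a quadrature of degree `n` for `W` (`⊤` if there is none). -/
noncomputable def Nmin (W : ℝ → ℝ) (n : ℕ) : ℕ∞ := sInf {N : ℕ∞ | ∃ k : ℕ, N = k ∧ HasQuad W n k}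

/-- The function that is one near zero. -/
noncomputable def u (s θ : ℝ) : ℝ := if |Real.sin θ| ≤ s ∧ 0 < Real.cos θ then 1 else 0

/-- The weight. -/
noncomputable def W (s θ : ℝ) : ℝ := if |Real.sin θ| ≤ s then 1 else 0

/-- The factor. -/
noncomputable def h (κ θ : ℝ) : ℝ := if 0 < Real.cos θ then 1 else κ

theorem u_measurable (s : ℝ) : Measurable (u s) := by
  unfold u
  refine Measurable.ite ?_ measurable_const measurable_const
  have h1 : MeasurableSet {θ : ℝ | |Real.sin θ| ≤ s} :=
    measurableSet_le (Real.measurable_sin.abs) measurable_const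
  have h2 : MeasurableSet {θ : ℝ | 0 < Real.cos θ} :=
    measurableSet_lt measurable_const Real.measurable_cos
  exact h1.inter h2

theorem W_measurable (s : ℝ) : Measurable (W s) := by
  unfold W
  exact Measurable.ite (measurableSet_le (Real.measurable_sin.abs) measurable_const)
    measurable_const measurable_const

theorem h_measurable (κ : ℝ) : Measurable (h κ) := by
  unfold h
  exact Measurable.ite (measurableSet_lt measurable_const Real.measurable_cos)
    measurable_const measurable_const

theorem u_nonneg (s θ : ℝ) : 0 ≤ u s θ := by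
  unfold u
  split_ifs <;> norm_num

theorem u_le_one (s θ : ℝ) : u s θ ≤ 1 := by
  unfold u
  split_ifs <;> norm_num

theorem u_periodic (s : ℝ) : Function.Periodic (u s) (2 * π) := by
  intro θ
  unfold u
  rw [Real.sin_add_two_pi, Real.cos_add_two_pi]

theorem u_neg (s θ : ℝ) : u s (-θ) = u s θ := by
  unfold u
  rw [Real.sin_neg, Real.cos_neg, abs_neg]

/-- The decomposition of the perturbed weight. -/
theorem hW_eq {s κ : ℝ} (hs : s < 1) (θ : ℝ) : h κ θ * W s θ = u s θ + κ * u s (θ + π) := by
  unfold h W u
  rw [Real.sin_add_pi, Real.cos_add_pi, abs_neg]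
  by_cases h1 : |Real.sin θ| ≤ s
  · rcases lt_trichotomy (Real.cos θ) 0 with h2 | h2 | h2
    · simp [h1, h2, not_lt.2 h2.le]
    · exfalso
      have h3 := Real.sin_sq_add_cos_sq θ
      rw [h2] at h3
      have h4 : Real.sin θ ^ 2 = |Real.sin θ| ^ 2 := (sq_abs _).symm
      have h5 : |Real.sin θ| ^ 2 < 1 := by
        have := abs_nonneg (Real.sin θ)
        nlinarith
      nlinarith
    · simp [h1, h2, not_lt.2 h2.le]
  · simp [h1]

theorem integrable_mul {s : ℝ} {p : ℝ → ℝ} (hp : Continuous p) (a b : ℝ) :
    IntervalIntegrable (fun θ => p θ * u s θ) volume a b := by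
  have h1 : IntervalIntegrable p volume a b := hp.intervalIntegrable a b
  refine IntervalIntegrable.mono_fun' h1.abs ?_ ?_
  · exact (hp.measurable.mul (u_measurable s)).aestronglyMeasurable
  · refine Filter.Eventually.of_forall fun θ => ?_
    simp only [norm_eq_abs]
    rw [abs_mul]
    have h2 : |u s θ| ≤ 1 := by
      rw [abs_of_nonneg (u_nonneg s θ)]
      exact u_le_one s θ
    calc |p θ| * |u s θ| ≤ |p θ| * 1 := by gcongr
      _ = |p θ| := mul_one _

/-- The mass near zero. -/
noncomputable def mass (s : ℝ) : ℝ := ∫ θ in (-π)..π, u s θ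

theorem u_integrable (s a b : ℝ) : IntervalIntegrable (u s) volume a b := by
  have := integrable_mul (s := s) (p := fun _ => 1) continuous_const a b
  simpa using this

theorem mass_pos {s : ℝ} (hs0 : 0 < s) (hs1 : s < 1) : 0 < mass s := by
  unfold mass
  have hpi := Real.pi_gt_three
  have h1 : ∫ θ in (-s)..s, u s θ = 2 * s := by
    have : ∫ θ in (-s)..s, u s θ = ∫ θ in (-s)..s, (1 : ℝ) := by
      apply intervalIntegral.integral_congr
      intro θ hθ
      rw [Set.uIcc_of_le (by linarith)] at hθ
      have h2 : |θ| ≤ s := abs_le.2 ⟨hθ.1, hθ.2⟩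
      have h3 : |Real.sin θ| ≤ s := (Real.abs_sin_le_abs).trans h2
      have h4 : 0 < Real.cos θ := Real.cos_pos_of_mem_Ioo ⟨by
        have := hθ.1
        linarith [Real.pi_gt_three], by
        have := hθ.2
        linarith [Real.pi_gt_three]⟩
      simp only [u]
      rw [if_pos ⟨h3, h4⟩]
    rw [this, intervalIntegral.integral_const]
    simp
    ring
  have h2 : ∫ θ in (-s)..s, u s θ ≤ ∫ θ in (-π)..π, u s θ := by
    apply intervalIntegral.integral_mono_interval (by linarith) (by linarith) (by linarith)
    · exact Filter.Eventually.of_forall fun θ => u_nonneg s θ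
    · exact u_integrable s _ _
  linarith

/-- Integration against the perturbed weight. -/
theorem integral_hW {s κ : ℝ} (hs : s < 1) {p : ℝ → ℝ} (hp : Continuous p)
    (hper : Function.Periodic p (2 * π)) :
    ∫ θ in (-π)..π, p θ * (h κ θ * W s θ) =
      ∫ θ in (-π)..π, (p θ + κ * p (θ + π)) * u s θ := by
  have h1 : ∀ θ, p θ * (h κ θ * W s θ) = p θ * u s θ + κ * (p θ * u s (θ + π)) := by
    intro θ
    rw [hW_eq hs]
    ring
  have hq : Continuous fun θ => p (θ + π) := hp.comp (continuous_id.add continuous_const)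
  have h2 : ∫ θ in (-π)..π, p θ * u s (θ + π) = ∫ θ in (-π)..π, p (θ + π) * u s θ := by
    -- both are shifts of the same periodic function
    have hP : Function.Periodic (fun θ => p (θ + π) * u s θ) (2 * π) := by
      intro θ
      show p (θ + 2 * π + π) * u s (θ + 2 * π) = p (θ + π) * u s θ
      rw [u_periodic s θ, show θ + 2 * π + π = (θ + π) + 2 * π by ring, hper]
    have e1 : (fun θ => p θ * u s (θ + π)) = fun θ => (fun t => p (t + π) * u s t) (θ + π) := by
      funext θ
      show p θ * u s (θ + π) = p (θ + π + π) * u s (θ + π)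
      rw [show θ + π + π = θ + 2 * π by ring, hper]
    rw [e1, intervalIntegral.integral_comp_add_right (fun t => p (t + π) * u s t)]
    have e2 := hP.intervalIntegral_add_eq (-π + π) (-π)
    rw [show -π + π + 2 * π = π + π by ring, show -π + 2 * π = π by ring] at e2
    exact e2
  have i1 : IntervalIntegrable (fun θ => p θ * u s θ) volume (-π) π := integrable_mul hp _ _
  have i2 : IntervalIntegrable (fun θ => p (θ + π) * u s θ) volume (-π) π :=
    integrable_mul hq _ _
  have i3 : IntervalIntegrable (fun θ => p θ * u s (θ + π)) volume (-π) π := by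
    have := (integrable_mul (s := s) (p := fun θ => p (θ - π))
      (hp.comp (continuous_id.sub continuous_const)) (-π + π) (π + π)).comp_add_right π
    simpa using this
  calc ∫ θ in (-π)..π, p θ * (h κ θ * W s θ)
      = ∫ θ in (-π)..π, (p θ * u s θ + κ * (p θ * u s (θ + π))) := by
        simp only [h1]
    _ = (∫ θ in (-π)..π, p θ * u s θ) + κ * ∫ θ in (-π)..π, p θ * u s (θ + π) := by
        rw [intervalIntegral.integral_add i1 (i3.const_mul κ),
          intervalIntegral.integral_const_mul]
    _ = (∫ θ in (-π)..π, p θ * u s θ) + κ * ∫ θ in (-π)..π, p (θ + π) * u s θ := by rw [h2]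
    _ = ∫ θ in (-π)..π, (p θ + κ * p (θ + π)) * u s θ := by
        rw [← intervalIntegral.integral_const_mul, ← intervalIntegral.integral_add i1
          (i2.const_mul κ)]
        congr 1
        funext θ
        ring

end Pool.Agent.R228.CQ
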