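import Pool.Agent.R228.CQ.Basic

/-!
# Unbounded change of the node count
-/

set_option autoImplicit false

namespace Pool.Agent.R228.CQ

open Real MeasureTheory

theorem cosk_mem (n k : ℕ) (hk : k ≤ n) : (fun θ : ℝ => Real.cos (k * θ)) ∈ TrigPoly n := by
  refine ⟨fun j => if j = k then 1 else 0, fun _ => 0, fun θ => ?_⟩
  rw [Finset.sum_eq_single k]
  · simp
  · intro j _ hj
    simp [hj]
  · intro hk'
    exact absurd (Finset.mem_range.2 (by omega)) hk'

theorem smul_add_mem {n : ℕ} {p q : ℝ → ℝ} (hp : p ∈ TrigPoly n) (hq : q ∈ TrigPoly n) (s t : ℝ) :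
    (fun θ => s * p θ + t * q θ) ∈ TrigPoly n := by
  obtain ⟨a, b, h1⟩ := hp
  obtain ⟨c, d, h2⟩ := hq
  refine ⟨fun k => s * a k + t * c k, fun k => s * b k + t * d k, fun θ => ?_⟩
  simp only
  rw [h1, h2, Finset.mul_sum, Finset.mul_sum, ← Finset.sum_add_distrib]
  exact Finset.sum_congr rfl fun k _ => by ring

theorem one_mem (n : ℕ) : (fun _ : ℝ => (1 : ℝ)) ∈ TrigPoly n := by
  have := cosk_mem n 0 (Nat.zero_le n)
  simpa using this

theorem cos_mem {n : ℕ} (hn : 1 ≤ n) : Real.cos ∈ TrigPoly n := by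
  have := cosk_mem n 1 hn
  simpa using this

theorem sinsq_mem {n : ℕ} (hn : 2 ≤ n) : (fun θ => Real.sin θ ^ 2) ∈ TrigPoly n := by
  have h := smul_add_mem (one_mem n) (cosk_mem n 2 hn) (1 / 2) (-(1 / 2))
  have e : (fun θ => Real.sin θ ^ 2) =
      fun θ : ℝ => 1 / 2 * 1 + -(1 / 2) * Real.cos ((2 : ℕ) * θ) := by
    funext θ
    rw [show ((2 : ℕ) : ℝ) * θ = 2 * θ by norm_num, Real.cos_two_mul, Real.sin_sq]
    ring
  rw [e]
  exact h

/-- Few nodes are impossible for the perturbed weight. -/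
theorem not_hasQuad {q N : ℕ} (hN : N < 2 * q + 1) {s : ℝ} (hs0 : 0 < s) (hs1 : s < 1)
    (hsq : 2 * s ^ 2 * (2 * q + 1) ^ 2 < 1) (hq : 0 < q) {n : ℕ} (hn : 2 ≤ n) :
    ¬ HasQuad (fun θ => h (1 + 1 / q) θ * W s θ) n N := by
  rintro ⟨x, lam, hx⟩
  have hq0 : (0 : ℝ) < q := by exact_mod_cast hq
  set κ : ℝ := 1 + 1 / q with hκ
  have hκ1 : 0 < 1 + κ := by positivity
  have hm := mass_pos hs0 hs1
  have hper1 : Function.Periodic (fun _ : ℝ => (1 : ℝ)) (2 * π) := fun _ => rfl
  -- the three test functions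
  have t1 := hx _ (one_mem n)
  rw [integral_hW hs1 continuous_const hper1] at t1
  have t2 := hx _ (cos_mem (by omega))
  rw [integral_hW hs1 Real.continuous_cos Real.cos_periodic] at t2
  have t3 := hx _ (sinsq_mem hn)
  have hsc : Continuous fun θ : ℝ => Real.sin θ ^ 2 := Real.continuous_sin.pow 2
  have hsp : Function.Periodic (fun θ : ℝ => Real.sin θ ^ 2) (2 * π) := fun θ => by
    simp only
    rw [Real.sin_periodic θ]
  have t3' := integral_hW (κ := κ) hs1 hsc hsp
  rw [t3'] at t3
  -- evaluate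
  have e1 : ∫ θ in (-π)..π, ((1 : ℝ) + κ * 1) * u s θ = (1 + κ) * mass s := by
    rw [mul_one, intervalIntegral.integral_const_mul]
    rfl
  rw [e1] at t1
  simp only [Finset.sum_const, Finset.card_univ, Fintype.card_fin, nsmul_eq_mul, mul_one] at t1
  set A := ∫ θ in (-π)..π, Real.cos θ * u s θ with hA
  have e2 : ∫ θ in (-π)..π, (Real.cos θ + κ * Real.cos (θ + π)) * u s θ = (1 - κ) * A := by
    rw [hA, ← intervalIntegral.integral_const_mul]
    congr 1
    funext θ
    rw [Real.cos_add_pi]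
    ring
  rw [e2] at t2
  have iu := u_integrable s (-π) π
  have icos : IntervalIntegrable (fun θ => Real.cos θ * u s θ) volume (-π) π :=
    integrable_mul Real.continuous_cos _ _
  have isin : IntervalIntegrable (fun θ => Real.sin θ ^ 2 * u s θ) volume (-π) π :=
    integrable_mul (Real.continuous_sin.pow 2) _ _
  have hpi : -π ≤ π := by linarith [Real.pi_pos]
  -- pointwise bounds
  have hsinu : ∀ θ, Real.sin θ ^ 2 * u s θ ≤ s ^ 2 * u s θ := by
    intro θ
    unfold u
    split_ifs with h1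
    · have h2 : Real.sin θ ^ 2 = |Real.sin θ| ^ 2 := (sq_abs _).symm
      rw [h2, mul_one, mul_one]
      exact pow_le_pow_left₀ (abs_nonneg _) h1.1 2
    · simp
  have hcosu : ∀ θ, (1 - s ^ 2) * u s θ ≤ Real.cos θ * u s θ := by
    intro θ
    unfold u
    split_ifs with h1
    · have h2 : Real.sin θ ^ 2 = |Real.sin θ| ^ 2 := (sq_abs _).symm
      have h3 := pow_le_pow_left₀ (abs_nonneg _) h1.1 2
      have h4 := Real.sin_sq_add_cos_sq θ
      have h5 := Real.cos_le_one θ
      nlinarith [h1.2]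
    · simp
  have hcosu' : ∀ θ, Real.cos θ * u s θ ≤ u s θ := by
    intro θ
    have := Real.cos_le_one θ
    nlinarith [u_nonneg s θ]
  have hA1 : (1 - s ^ 2) * mass s ≤ A := by
    unfold mass
    rw [← intervalIntegral.integral_const_mul]
    exact intervalIntegral.integral_mono_on hpi (iu.const_mul _) icos fun θ _ => hcosu θ
  have hA2 : A ≤ mass s := intervalIntegral.integral_mono_on hpi icos iu fun θ _ => hcosu' θ
  have e3 : ∫ θ in (-π)..π, (Real.sin θ ^ 2 + κ * Real.sin (θ + π) ^ 2) * u s θ ≤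
      (1 + κ) * (s ^ 2 * mass s) := by
    have : ∫ θ in (-π)..π, (Real.sin θ ^ 2 + κ * Real.sin (θ + π) ^ 2) * u s θ =
        (1 + κ) * ∫ θ in (-π)..π, Real.sin θ ^ 2 * u s θ := by
      rw [← intervalIntegral.integral_const_mul]
      congr 1
      funext θ
      rw [Real.sin_add_pi]
      ring
    rw [this]
    refine mul_le_mul_of_nonneg_left ?_ hκ1.le
    unfold mass
    rw [← intervalIntegral.integral_const_mul]
    exact intervalIntegral.integral_mono_on hpi isin (iu.const_mul _) fun θ _ => hsinu θ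
  -- the number of nodes is positive and so is the weight
  have hprod : 0 < (1 + κ) * mass s := mul_pos hκ1 hm
  have hN0 : (0 : ℝ) < N := by
    rcases Nat.eq_zero_or_pos N with h0 | h0
    · exfalso
      rw [h0] at t1
      simp only [Nat.cast_zero, mul_zero] at t1
      rw [t1] at hprod
      exact lt_irrefl _ hprod
    · exact_mod_cast h0
  have hlam : 0 < lam := by
    rw [t1] at hprod
    exact (mul_pos_iff_of_pos_right hN0).1 hprod
  -- the sines are small
  have hsin : ∑ i, Real.sin (x i) ^ 2 ≤ s ^ 2 * N := by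
    rw [t3] at e3
    have h1 : (1 + κ) * (s ^ 2 * mass s) = lam * (s ^ 2 * N) := by
      calc (1 + κ) * (s ^ 2 * mass s) = s ^ 2 * ((1 + κ) * mass s) := by ring
        _ = s ^ 2 * (lam * N) := by rw [t1]
        _ = lam * (s ^ 2 * N) := by ring
    rw [h1] at e3
    exact le_of_mul_le_mul_left e3 hlam
  -- the sum of the cosines is nearly an integer
  set K : ℤ := ∑ i, (if 0 ≤ Real.cos (x i) then (1 : ℤ) else -1) with hK
  have hcos : |∑ i, Real.cos (x i) - K| ≤ s ^ 2 * N := by
    have h1 : (K : ℝ) = ∑ i, (if 0 ≤ Real.cos (x i) then (1 : ℝ) else -1) := by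
      rw [hK]
      push_cast
      exact Finset.sum_congr rfl fun i _ => by split_ifs <;> norm_num
    rw [h1, ← Finset.sum_sub_distrib]
    refine (Finset.abs_sum_le_sum_abs _ _).trans (le_trans (Finset.sum_le_sum fun i _ => ?_) hsin)
    have h4 := Real.sin_sq_add_cos_sq (x i)
    have h5 := Real.cos_le_one (x i)
    have h6 := Real.neg_one_le_cos (x i)
    split_ifs with h7
    · rw [abs_of_nonpos (by linarith)]
      nlinarith
    · push Not at h7
      rw [abs_of_nonneg (by linarith)]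
      nlinarith
  -- the mean of the cosine
  have hsum : (1 + κ) * mass s * ∑ i, Real.cos (x i) = (1 - κ) * A * N := by
    rw [t2, t1]
    ring
  have hκ2 : 1 - κ = -(1 / q) := by
    rw [hκ]
    ring
  have hκ3 : 1 + κ = (2 * q + 1) / q := by
    rw [hκ]
    field_simp
    ring
  have hsum2 : (2 * q + 1) * (mass s * ∑ i, Real.cos (x i)) = -(A * N) := by
    rw [hκ2, hκ3] at hsum
    field_simp at hsum
    linarith
  have hq1 : (0 : ℝ) < 2 * q + 1 := by positivity
  have hNlt : (N : ℝ) < 2 * q + 1 := by exact_mod_cast hN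
  -- compare with `-N / (2q+1)`
  set Sg := ∑ i, Real.cos (x i) with hSg
  have h1 : -(N : ℝ) ≤ (2 * q + 1) * Sg := by
    have : mass s * (-(N : ℝ)) ≤ mass s * ((2 * q + 1) * Sg) := by
      have e : mass s * ((2 * q + 1) * Sg) = -(A * N) := by
        rw [← hsum2]
        ring
      rw [e]
      nlinarith
    exact le_of_mul_le_mul_left this hm
  have h2 : (2 * q + 1) * Sg ≤ -(1 - s ^ 2) * N := by
    have : mass s * ((2 * q + 1) * Sg) ≤ mass s * (-(1 - s ^ 2) * N) := by
      have e : mass s * ((2 * q + 1) * Sg) = -(A * N) := by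
        rw [← hsum2]
        ring
      rw [e]
      nlinarith
    exact le_of_mul_le_mul_left this hm
  -- the integer
  have h3 : |(2 * (q : ℝ) + 1) * K + N| < 1 := by
    have h4 : |(2 * (q : ℝ) + 1) * Sg + N| ≤ s ^ 2 * N := by
      rw [abs_le]
      constructor
      · have : 0 ≤ s ^ 2 * N := by positivity
        linarith
      · linarith
    have h5 : (2 * (q : ℝ) + 1) * K + N = ((2 * q + 1) * Sg + N) - (2 * q + 1) * (Sg - K) := by
      ring
    have h6 : |(2 * (q : ℝ) + 1) * (Sg - K)| ≤ (2 * q + 1) * (s ^ 2 * N) := by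
      rw [abs_mul, abs_of_pos hq1]
      exact mul_le_mul_of_nonneg_left hcos hq1.le
    have h7 : |(2 * (q : ℝ) + 1) * K + N| ≤ s ^ 2 * N + (2 * q + 1) * (s ^ 2 * N) := by
      rw [h5]
      exact (abs_sub _ _).trans (add_le_add h4 h6)
    have h8 : s ^ 2 * N + (2 * q + 1) * (s ^ 2 * N) ≤ 2 * s ^ 2 * (2 * q + 1) ^ 2 := by
      have h9 : s ^ 2 * N ≤ s ^ 2 * (2 * q + 1) := mul_le_mul_of_nonneg_left hNlt.le (by positivity)
      have h10 : (2 * (q : ℝ) + 1) * (s ^ 2 * N) ≤ (2 * q + 1) * (s ^ 2 * (2 * q + 1)) :=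
        mul_le_mul_of_nonneg_left h9 hq1.le
      have h11 : s ^ 2 * (2 * (q : ℝ) + 1) ≤ s ^ 2 * (2 * q + 1) ^ 2 := by
        apply mul_le_mul_of_nonneg_left _ (by positivity)
        nlinarith
      nlinarith
    linarith
  have h4 : |(2 * (q : ℤ) + 1) * K + N| < 1 := by
    have : ((|(2 * (q : ℤ) + 1) * K + N| : ℤ) : ℝ) < 1 := by
      push_cast
      exact h3
    exact_mod_cast this
  have h5 : (2 * (q : ℤ) + 1) * K + N = 0 := Int.abs_lt_one_iff.1 h4
  have h6 : (2 * (q : ℤ) + 1) ∣ N := ⟨-K, by linarith⟩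
  have hNpos : (0 : ℤ) < N := by exact_mod_cast hN0
  have h7 := Int.le_of_dvd hNpos h6
  have h8 : (N : ℤ) < 2 * q + 1 := by exact_mod_cast hN
  omega

/-- Four nodes suffice for the original weight. -/
theorem hasQuad_four {s : ℝ} (hs0 : 0 < s) (hs1 : s < 1) : HasQuad (W s) 2 4 := by
  have hm := mass_pos hs0 hs1
  have hpi : -π ≤ π := by linarith [Real.pi_pos]
  -- integration against `W`
  have hW : ∀ p : ℝ → ℝ, Continuous p → Function.Periodic p (2 * π) →
      ∫ θ in (-π)..π, p θ * W s θ = ∫ θ in (-π)..π, (p θ + p (θ + π)) * u s θ := by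
    intro p hp hper
    have h1 := integral_hW (κ := 1) hs1 hp hper
    have h2 : ∀ θ, h 1 θ = 1 := by
      intro θ
      unfold h
      split_ifs <;> rfl
    simpa [h2] using h1
  set c2 := ∫ θ in (-π)..π, Real.cos (2 * θ) * u s θ with hc2
  have iu := u_integrable s (-π) π
  have hcont : Continuous fun θ : ℝ => Real.cos (2 * θ) :=
    Real.continuous_cos.comp (continuous_const.mul continuous_id)
  have ic : IntervalIntegrable (fun θ => Real.cos (2 * θ) * u s θ) volume (-π) π :=
    integrable_mul hcont _ _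
  have hc1 : c2 ≤ mass s := intervalIntegral.integral_mono_on hpi ic iu fun θ _ => by
    have := Real.cos_le_one (2 * θ)
    nlinarith [u_nonneg s θ]
  have hc3 : -mass s ≤ c2 := by
    unfold mass
    rw [← intervalIntegral.integral_neg]
    exact intervalIntegral.integral_mono_on hpi iu.neg ic fun θ _ => by
      have := Real.neg_one_le_cos (2 * θ)
      nlinarith [u_nonneg s θ]
  set δ := Real.arccos (c2 / mass s) / 2 with hδ
  have hcδ : Real.cos (2 * δ) = c2 / mass s := by
    rw [hδ, mul_div_cancel₀ _ (two_ne_zero), Real.cos_arccos]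
    · rw [le_div_iff₀ hm]
      linarith
    · rw [div_le_one hm]
      exact hc1
  have hs2 : ∫ θ in (-π)..π, Real.sin (2 * θ) * u s θ = 0 := by
    have h1 := intervalIntegral.integral_comp_neg (a := -π) (b := π)
      (fun θ => Real.sin (2 * θ) * u s θ)
    simp only [neg_neg, mul_neg, Real.sin_neg, u_neg, neg_mul] at h1
    rw [intervalIntegral.integral_neg] at h1
    linarith
  refine ⟨![δ, -δ, δ + π, -δ + π], mass s / 2, fun p hp => ?_⟩
  obtain ⟨a, b, hab⟩ := hp
  have hp1 : ∀ θ, p θ = a 0 + (a 1 * Real.cos θ + b 1 * Real.sin θ) +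
      (a 2 * Real.cos (2 * θ) + b 2 * Real.sin (2 * θ)) := by
    intro θ
    rw [hab, Finset.sum_range_succ, Finset.sum_range_succ, Finset.sum_range_succ,
      Finset.sum_range_zero]
    push_cast
    simp
  have hpc : Continuous p := by
    have : p = fun θ => a 0 + (a 1 * Real.cos θ + b 1 * Real.sin θ) +
      (a 2 * Real.cos (2 * θ) + b 2 * Real.sin (2 * θ)) := funext hp1
    rw [this]
    fun_prop
  have hc2p : ∀ θ : ℝ, Real.cos (2 * (θ + π)) = Real.cos (2 * θ) := by
    intro θ
    rw [show 2 * (θ + π) = 2 * θ + 2 * π by ring, Real.cos_add_two_pi]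
  have hs2p : ∀ θ : ℝ, Real.sin (2 * (θ + π)) = Real.sin (2 * θ) := by
    intro θ
    rw [show 2 * (θ + π) = 2 * θ + 2 * π by ring, Real.sin_add_two_pi]
  have hpp : Function.Periodic p (2 * π) := by
    intro θ
    rw [hp1, hp1, Real.cos_add_two_pi, Real.sin_add_two_pi,
      show 2 * (θ + 2 * π) = 2 * θ + 2 * π + 2 * π by ring, Real.cos_add_two_pi,
      Real.cos_add_two_pi, Real.sin_add_two_pi, Real.sin_add_two_pi]
  have hsum : ∀ θ, p θ + p (θ + π) =
      2 * a 0 + 2 * a 2 * Real.cos (2 * θ) + 2 * b 2 * Real.sin (2 * θ) := by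
    intro θ
    rw [hp1, hp1, hc2p, hs2p, Real.cos_add_pi, Real.sin_add_pi]
    ring
  rw [hW p hpc hpp]
  have isn : IntervalIntegrable (fun θ => Real.sin (2 * θ) * u s θ) volume (-π) π :=
    integrable_mul (Real.continuous_sin.comp (continuous_const.mul continuous_id)) _ _
  have e1 : ∫ θ in (-π)..π, (p θ + p (θ + π)) * u s θ = 2 * a 0 * mass s + 2 * a 2 * c2 := by
    have h1 : ∀ θ, (p θ + p (θ + π)) * u s θ = (2 * a 0 * u s θ + 2 * a 2 *
        (Real.cos (2 * θ) * u s θ)) + 2 * b 2 * (Real.sin (2 * θ) * u s θ) := by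
      intro θ
      rw [hsum]
      ring
    simp only [h1]
    rw [intervalIntegral.integral_add ((iu.const_mul _).add (ic.const_mul _)) (isn.const_mul _),
      intervalIntegral.integral_add (iu.const_mul _) (ic.const_mul _),
      intervalIntegral.integral_const_mul, intervalIntegral.integral_const_mul,
      intervalIntegral.integral_const_mul, hs2, mul_zero, add_zero]
    rfl
  rw [e1]
  have e2 : ∑ i : Fin 4, p (![δ, -δ, δ + π, -δ + π] i) = (p δ + p (δ + π)) +
      (p (-δ) + p (-δ + π)) := by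
    rw [Fin.sum_univ_four]
    simp only [Matrix.cons_val]
    ring
  rw [e2, hsum, hsum, mul_neg, Real.cos_neg, Real.sin_neg, hcδ]
  field_simp
  ring

theorem isWeight_W {s : ℝ} (hs0 : 0 < s) (hs1 : s < 1) : IsWeight (W s) := by
  have hW0 : ∀ θ, 0 ≤ W s θ := by
    intro θ
    unfold W
    split_ifs <;> norm_num
  have huW : ∀ θ, u s θ ≤ W s θ := by
    intro θ
    unfold u W
    by_cases h1 : |Real.sin θ| ≤ s
    · by_cases h2 : 0 < Real.cos θ <;> simp [h1, h2]
    · simp [h1]
  have hint : IntervalIntegrable (W s) volume (-π) π := by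
    refine IntervalIntegrable.mono_fun' (g := fun _ => (1 : ℝ)) intervalIntegrable_const
      (W_measurable s).aestronglyMeasurable (Filter.Eventually.of_forall fun θ => ?_)
    simp only [norm_eq_abs]
    rw [abs_of_nonneg (hW0 θ)]
    unfold W
    split_ifs <;> norm_num
  refine ⟨W_measurable s, hW0, fun θ => ?_, hint, ?_⟩
  · unfold W
    rw [Real.sin_add_two_pi]
  · have := mass_pos hs0 hs1
    refine lt_of_lt_of_le this ?_
    unfold mass
    exact intervalIntegral.integral_mono_on (by linarith [Real.pi_pos]) (u_integrable s _ _) hint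
      fun θ _ => huW θ

/-- Multiplying the weight by a positive constant does not change the quadratures. -/
theorem HasQuad.const_mul {V : ℝ → ℝ} {n N : ℕ} {c : ℝ} (h : HasQuad V n N) :
    HasQuad (fun θ => c * V θ) n N := by
  obtain ⟨x, lam, hx⟩ := h
  refine ⟨x, c * lam, fun p hp => ?_⟩
  have h1 : ∀ θ, p θ * (c * V θ) = c * (p θ * V θ) := fun θ => by ring
  simp only [h1]
  rw [intervalIntegral.integral_const_mul, hx p hp]
  ring

theorem hasQuad_const_mul_iff {V : ℝ → ℝ} {n N : ℕ} {c : ℝ} (hc : 0 < c) :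
    HasQuad (fun θ => c * V θ) n N ↔ HasQuad V n N := by
  refine ⟨fun h => ?_, fun h => h.const_mul⟩
  have := h.const_mul (c := c⁻¹)
  refine cast ?_ this
  congr 1
  funext θ
  field_simp

/-- The main theorem. -/
theorem main (m M : ℝ) (hm : 0 < m) (hmM : m < M) (C : ℕ) : ∃ (V g : ℝ → ℝ), IsWeight V ∧
    Measurable g ∧ (∀ θ, g (θ + 2 * π) = g θ) ∧ (∀ θ, m < g θ ∧ g θ < M) ∧
    Nmin V 2 ≤ 4 ∧ (C : ℕ∞) * Nmin V 2 < Nmin (fun θ => g θ * V θ) 2 := by
  set c : ℝ := (m + M) / 2 with hc
  have hc1 : m < c := by rw [hc]; linarith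
  have hc2 : c < M := by rw [hc]; linarith
  have hc0 : 0 < c := hm.trans hc1
  obtain ⟨r, hr⟩ := exists_nat_gt (c / (M - c))
  set q : ℕ := 4 * C + 1 + r with hq
  have hq0 : 0 < q := by omega
  have hqr : (1 : ℝ) ≤ q := by exact_mod_cast hq0
  have hrq : (r : ℝ) ≤ q := by
    have : r ≤ q := by omega
    exact_mod_cast this
  set s : ℝ := 1 / (2 * (2 * q + 1)) with hs
  have hs0 : 0 < s := by positivity
  have hs1 : s < 1 := by
    rw [hs, div_lt_one (by positivity)]
    linarith
  have hsq : 2 * s ^ 2 * (2 * (q : ℝ) + 1) ^ 2 < 1 := by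
    have : 2 * s ^ 2 * (2 * (q : ℝ) + 1) ^ 2 = 1 / 2 := by
      rw [hs]
      field_simp
    rw [this]
    norm_num
  have hcq : c * (1 + 1 / q) < M := by
    have hMc : 0 < M - c := by linarith
    have h1 : c / (M - c) < q := hr.trans_le hrq
    rw [div_lt_iff₀ hMc] at h1
    have h2 : c * (1 / (q : ℝ)) < M - c := by
      rw [mul_one_div, div_lt_iff₀ (by linarith)]
      linarith
    linarith
  have h4 : Nmin (W s) 2 ≤ 4 := sInf_le ⟨4, rfl, hasQuad_four hs0 hs1⟩
  refine ⟨W s, fun θ => c * h (1 + 1 / q) θ, isWeight_W hs0 hs1,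
    measurable_const.mul (h_measurable _), fun θ => ?_, fun θ => ?_, h4, ?_⟩
  · simp only [h]
    rw [Real.cos_add_two_pi]
  · have h1 : 0 < 1 / (q : ℝ) := by positivity
    simp only [h]
    split_ifs
    · constructor <;> linarith
    · constructor
      · nlinarith
      · exact hcq
  · have h1 : ((2 * q + 1 : ℕ) : ℕ∞) ≤ Nmin (fun θ => c * h (1 + 1 / q) θ * W s θ) 2 := by
      refine le_sInf ?_
      rintro N ⟨k, rfl, hk⟩
      by_contra hcon
      push Not at hcon
      have hk2 : k < 2 * q + 1 := by exact_mod_cast hcon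
      have hk3 : HasQuad (fun θ => c * (h (1 + 1 / q) θ * W s θ)) 2 k := by
        simpa only [mul_assoc] using hk
      exact not_hasQuad hk2 hs0 hs1 hsq hq0 le_rfl ((hasQuad_const_mul_iff hc0).1 hk3)
    refine lt_of_le_of_lt (mul_le_mul_right h4 _) (lt_of_lt_of_le ?_ h1)
    have : C * 4 < 2 * q + 1 := by omega
    exact_mod_cast this

end Pool.Agent.R228.CQ
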